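import Pool.Agent.H948.SF.Base

/-!
# Piece [GEV] of project SF: the events `Gev v j` are measurable and their probability is bounded
below
-/

set_option autoImplicit false

namespace Pool.Agent.H948.SF

open MeasureTheory ProbabilityTheory Set Filter
open scoped ENNReal NNReal Nat Topology

namespace GevN

variable {e M τ : ℕ}

lemma meas_Sv (h3 : S_MEAS) (i : ℕ) : ∀ (c : W e) (t : ℤ),
    MeasurableSet {ω : Env (Lab (W e)) | Sv e M τ ω i c t} := by
  induction i with
  | zero => intro c t; simp [Sv]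
  | succ i ih =>
    intro c t
    have he : {ω : Env (Lab (W e)) | Sv e M τ ω (i + 1) c t} =
        ⋃ w ∈ Lset e M, ({ω : Env (Lab (W e)) | Blk e M τ ω c t w} ∩
          {ω : Env (Lab (W e)) | Sv e M τ ω i (w ++ c) (t - 1)}) := by
      ext ω
      simp only [Sv, mem_iUnion, exists_prop, mem_inter_iff]
      exact Iff.rfl
    rw [he]
    refine MeasurableSet.biUnion (Set.to_countable _) fun w _ => ?_
    exact (h3 (W e) _ _ _ _ _).inter (ih _ _)

lemma meas_Sva (h3 : S_MEAS) (c : W e) (t : ℤ) :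
    MeasurableSet {ω : Env (Lab (W e)) | ∀ i, Sv e M τ ω i c t} := by
  have he : {ω : Env (Lab (W e)) | ∀ i, Sv e M τ ω i c t} =
      ⋂ i, {ω : Env (Lab (W e)) | Sv e M τ ω i c t} := by
    ext ω
    simp only [mem_iInter]
    exact Iff.rfl
  rw [he]
  exact MeasurableSet.iInter fun i => meas_Sv h3 i c t

lemma meas_norec {V : Type} (i : Lab V) (a b : ℝ) :
    MeasurableSet {ω : Env (Lab V) | ∀ r ∈ marks ω i, ¬ (a < r ∧ r ≤ b)} := by
  have he : {ω : Env (Lab V) | ∀ r ∈ marks ω i, ¬ (a < r ∧ r ≤ b)} =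
      ⋂ (k : ℤ) (l : ℕ), ({ω : Env (Lab V) | l < (ω (i, k)).1} ∩
        {ω : Env (Lab V) | a < k + ((ω (i, k)).2 l : ℝ) ∧ k + ((ω (i, k)).2 l : ℝ) ≤ b})ᶜ := by
    ext ω
    simp only [mem_iInter, mem_compl_iff, mem_inter_iff]
    constructor
    · intro h k l h'
      exact h _ ⟨k, l, h'.1, rfl⟩ h'.2
    · rintro h r ⟨k, l, h1, rfl⟩ h2
      exact h k l ⟨h1, h2⟩
  rw [he]
  refine MeasurableSet.iInter fun k => MeasurableSet.iInter fun l => ?_
  have m1 : Measurable fun ω : Env (Lab V) => (ω (i, k)).1 :=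
    measurable_fst.comp (measurable_pi_apply (i, k))
  have m2 : Measurable fun ω : Env (Lab V) => ((k : ℝ) + ((ω (i, k)).2 l : ℝ)) := by
    refine measurable_const.add ?_
    exact measurable_subtype_coe.comp ((measurable_pi_apply l).comp
      (measurable_snd.comp (measurable_pi_apply (i, k))))
  have s1 : MeasurableSet {ω : Env (Lab V) | l < (ω (i, k)).1} :=
    measurableSet_lt measurable_const m1
  have s2 : MeasurableSet {ω : Env (Lab V) | a < k + ((ω (i, k)).2 l : ℝ)} :=
    measurableSet_lt measurable_const m2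
  have s3 : MeasurableSet {ω : Env (Lab V) | k + ((ω (i, k)).2 l : ℝ) ≤ b} :=
    measurableSet_le m2 measurable_const
  exact (s1.inter (s2.inter s3)).compl

/-- The chains of blocks from time `t τ` depend on the windows before `t τ`. -/
lemma Sv_congr {ω ω' : Env (Lab (W e))} (T : ℤ) (h : ∀ i : Lab (W e) × ℤ, i.2 < T → ω i = ω' i) :
    ∀ (i : ℕ) (c : W e) (t : ℤ), t * τ ≤ T → Sv e M τ ω i c t → Sv e M τ ω' i c t := by
  intro i
  induction i with
  | zero => intro c t _ _; trivial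
  | succ i ih =>
    rintro c t ht ⟨w, hw, hb, hs⟩
    refine ⟨w, hw, ?_, ih _ _ ?_ hs⟩
    · unfold Blk at hb ⊢
      refine (Con_congr fun i hi => h i ?_).1 hb
      exact lt_of_lt_of_le hi.2.1 ht
    · have : (t - 1) * (τ : ℤ) = t * τ - τ := by ring
      rw [this]
      have : (0 : ℤ) ≤ τ := Int.natCast_nonneg τ
      linarith

/-- The third part of `Gev`. -/
lemma norec_of (ω : Env (Lab (W e))) (y : W e) (j : ℤ)
    (h : ∀ n : ℕ, n < τ → (ω (Sum.inr y, j * τ + 1 + n)).1 = 0) :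
    ∀ r ∈ marks ω (Sum.inr y), ¬ ((j : ℝ) * τ + 1 < r ∧ r ≤ (j + 1) * τ + 1) := by
  rintro r ⟨k, l, hl, rfl⟩ ⟨h1, h2⟩
  have hU := (((ω (Sum.inr y, k)).2 l).2 : ((ω (Sum.inr y, k)).2 l : ℝ) ∈ Ioc (0 : ℝ) 1)
  have k1 : j * τ < k := by
    have : ((j * τ : ℤ) : ℝ) < (k : ℝ) := by push_cast; linarith [hU.2]
    exact_mod_cast this
  have k2 : k < (j + 1) * τ + 1 := by
    have : (k : ℝ) < (((j + 1) * τ + 1 : ℤ) : ℝ) := by push_cast; linarith [hU.1]
    exact_mod_cast this
  have k3 : (j + 1) * (τ : ℤ) = j * τ + τ := by ring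
  obtain ⟨n, hn⟩ := Int.eq_ofNat_of_zero_le (show 0 ≤ k - (j * τ + 1) by omega)
  have hn' : n < τ := by omega
  have := h n hn'
  have hk : j * (τ : ℤ) + 1 + n = k := by omega
  rw [hk] at this
  omega

/-- The three kinds of events. -/
def Ev (e M τ : ℕ) (v : W e) (j : ℤ) : ℕ → Set (Env (Lab (W e)))
  | 0 => {ω | ∀ i, Sv e M τ ω i (0 :: par e j :: v) j}
  | 1 => {ω | Con (Rs (TW e) {0 :: par e j :: v, par e j :: v}) ω (0 :: par e j :: v) (j * τ)
      (par e j :: v) (j * τ + 1)}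
  | n + 2 => {ω | (ω (Sum.inr (par e j :: v), j * τ + 1 + n)).1 = 0}

/-- The supports. -/
def Iv (e τ : ℕ) (j : ℤ) : ℕ → Set (Lab (W e) × ℤ)
  | 0 => {i | i.2 < j * τ}
  | 1 => {i | i.2 = j * τ}
  | n + 2 => {i | i.2 = j * τ + 1 + n}

lemma meas_Ev (h3 : S_MEAS) (v : W e) (j : ℤ) : ∀ k, MeasurableSet (Ev e M τ v j k)
  | 0 => meas_Sva h3 _ _
  | 1 => h3 (W e) _ _ _ _ _
  | n + 2 => by
    have m1 : Measurable fun ω : Env (Lab (W e)) =>
        (ω (Sum.inr (par e j :: v), j * τ + 1 + n)).1 :=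
      measurable_fst.comp (measurable_pi_apply _)
    exact m1 (measurableSet_singleton 0)

lemma dep_Ev (v : W e) (j : ℤ) : ∀ (k : ℕ) (ω ω' : Env (Lab (W e))),
    (∀ i ∈ Iv e τ j k, ω i = ω' i) → (ω ∈ Ev e M τ v j k ↔ ω' ∈ Ev e M τ v j k)
  | 0, ω, ω', h => by
    constructor
    · intro hω i
      exact Sv_congr (j * τ) (fun i hi => h i hi) i _ _ le_rfl (hω i)
    · intro hω i
      exact Sv_congr (j * τ) (fun i hi => (h i hi).symm) i _ _ le_rfl (hω i)
  | 1, ω, ω', h => by
    refine Con_congr fun i hi => h i ?_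
    have h1 := hi.1
    have h2 := hi.2.1
    show i.2 = j * τ
    omega
  | n + 2, ω, ω', h => by
    have := h (Sum.inr (par e j :: v), j * τ + 1 + n) rfl
    show (ω (Sum.inr (par e j :: v), j * τ + 1 + n)).1 = 0 ↔
      (ω' (Sum.inr (par e j :: v), j * τ + 1 + n)).1 = 0
    rw [this]

lemma disj_Iv (j : ℤ) : ∀ k k' : ℕ, k < k' → Disjoint (Iv e τ j k) (Iv e τ j k') := by
  intro k k' hk
  rw [Set.disjoint_left]
  intro i hi hi'
  match k, k', hk, hi, hi' with
  | 0, 1, _, hi, hi' =>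
    have a : i.2 < j * τ := hi
    have b : i.2 = j * τ := hi'
    omega
  | 0, n + 2, _, hi, hi' =>
    have a : i.2 < j * τ := hi
    have b : i.2 = j * τ + 1 + n := hi'
    omega
  | 1, n + 2, _, hi, hi' =>
    have a : i.2 = j * τ := hi
    have b : i.2 = j * τ + 1 + n := hi'
    omega
  | m + 2, n + 2, hk, hi, hi' =>
    have a : i.2 = j * τ + 1 + m := hi
    have b : i.2 = j * τ + 1 + n := hi'
    omega

end GevN

open GevN in
/-- **[GEV]**. -/
theorem s_gev (h2 : S_BLOCK) (h3 : S_MEAS) (h4 : S_HAND) : S_GEV := by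
  intro e lam M τ ε hlam hM hτ hε hS
  refine ⟨?_, ?_⟩
  · intro v j
    exact (meas_Sva h3 _ _).inter ((h3 (W e) _ _ _ _ _).inter (meas_norec _ _ _))
  · -- the lower bound
    obtain ⟨q, hq⟩ : ∃ q : ℝ≥0∞, q = ε * (ENNReal.ofReal (hc lam) *
      ENNReal.ofReal (Real.exp (-1)) ^ τ) := ⟨_, rfl⟩
    have hhc : 0 < hc lam := by
      unfold hc
      have : Real.exp (-lam) < 1 :=
        (Real.exp_lt_exp.2 (by linarith : -lam < 0)).trans_eq Real.exp_zero
      exact mul_pos (Real.exp_pos _) (by linarith)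
    have hq0 : q ≠ 0 := by
      rw [hq]
      refine mul_ne_zero hε.ne' (mul_ne_zero ?_ (pow_ne_zero _ ?_))
      · exact (ENNReal.ofReal_pos.2 hhc).ne'
      · exact (ENNReal.ofReal_pos.2 (Real.exp_pos _)).ne'
    have hm0 : min q 1 ≠ 0 := by
      rcases min_choice q 1 with h | h <;> rw [h]
      · exact hq0
      · exact one_ne_zero
    have hmt : min q 1 ≠ ∞ := ne_top_of_le_ne_top ENNReal.one_ne_top (min_le_right q 1)
    refine ⟨(min q 1).toReal, ENNReal.toReal_pos hm0 hmt, ?_⟩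
    intro v j
    rw [ENNReal.ofReal_toReal hmt]
    refine (min_le_left q 1).trans ?_
    -- independence
    have hind := h2 (Lab (W e) × ℤ) (fun i => contactRate lam i.1) ℕ (fun _ => Prop)
      (fun k ω => ω ∈ Ev e M τ v j k) (Iv e τ j)
      (fun k => measurableSet_setOfPred.1 (meas_Ev h3 v j k))
      (fun k ω ω' h => propext (dep_Ev v j k ω ω' h))
      (by
        intro k k' hk
        rcases lt_or_gt_of_ne hk with h | h
        · exact disj_Iv j k k' h
        · exact (disj_Iv j k' k h).symm)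
    have hmeas := hind.measure_inter_preimage_eq_mul (Finset.range (τ + 2))
      (sets := fun _ => {True}) (fun _ _ => MeasurableSet.of_discrete)
    have hpre : ∀ k, (fun ω : Env (Lab (W e)) => ω ∈ Ev e M τ v j k) ⁻¹' {True} =
        Ev e M τ v j k := by
      intro k
      ext ω
      simp only [mem_preimage, mem_singleton_iff, eq_iff_iff, iff_true]
    have hmu : (Measure.infinitePi fun i : Lab (W e) × ℤ => cellLaw (contactRate lam i.1)) =
        mu (W e) lam := rfl
    rw [hmu] at hmeas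
    have hprod : mu (W e) lam (⋂ i ∈ Finset.range (τ + 2), Ev e M τ v j i) =
        ∏ i ∈ Finset.range (τ + 2), mu (W e) lam (Ev e M τ v j i) := by
      have e1 : (⋂ i ∈ Finset.range (τ + 2),
          (fun ω : Env (Lab (W e)) => ω ∈ Ev e M τ v j i) ⁻¹' {True}) =
          ⋂ i ∈ Finset.range (τ + 2), Ev e M τ v j i := by
        refine iInter_congr fun i => iInter_congr fun _ => hpre i
      rw [e1] at hmeas
      rw [hmeas]
      exact Finset.prod_congr rfl fun i _ => by rw [hpre i]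
    -- the smaller event
    have hsub : (⋂ i ∈ Finset.range (τ + 2), Ev e M τ v j i) ⊆
        {ω : Env (Lab (W e)) | Gev e M τ ω v j} := by
      intro ω hω
      simp only [mem_iInter, Finset.mem_range] at hω
      refine ⟨hω 0 (by omega), hω 1 (by omega), ?_⟩
      exact norec_of ω _ j fun n hn => hω (n + 2) (by omega)
    refine le_trans ?_ (measure_mono hsub)
    rw [hprod, Finset.prod_range_succ', Finset.prod_range_succ']
    have b0 : ε ≤ mu (W e) lam (Ev e M τ v j 0) := hS _ _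
    have b1 : ENNReal.ofReal (hc lam) ≤ mu (W e) lam (Ev e M τ v j (0 + 1)) :=
      (h4 (W e) (TW e) lam (0 :: par e j :: v) (par e j :: v) (j * τ) hlam).1
        (Or.inl ⟨0, rfl⟩)
    have b2 : ∏ k ∈ Finset.range τ, mu (W e) lam (Ev e M τ v j (k + 1 + 1)) =
        ENNReal.ofReal (Real.exp (-1)) ^ τ := by
      rw [← Finset.card_range τ, ← Finset.prod_const, Finset.card_range]
      refine Finset.prod_congr rfl fun k _ => ?_
      exact (h4 (W e) (TW e) lam (par e j :: v) (par e j :: v) (j * τ + 1 + k) hlam).2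
    rw [b2, hq, mul_comm ε]
    refine mul_le_mul' ?_ b0
    rw [mul_comm]
    exact mul_le_mul' le_rfl b1

end Pool.Agent.H948.SF
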